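import Pool.Agent.U991.F5.C54.Tab

set_option autoImplicit false
set_option maxRecDepth 100000

namespace Pool.Agent.U991.F5.C54

open Pool.Agent.H122R2.N6 Pool.Agent.U991.F5

def part (b012 b013 : ℕ) : Bool := B2 fun b023 => B2 fun b123 => B2 fun b014 => B2 fun b024 => B2 fun b124 => B2 fun b034 => B2 fun b134 => B2 fun b234 => or (not (Nat.beq (tg b012 b013 b023 b123 b014 b024 b124 b034 b134 b234) 4)) (chkV q4 q2 Z b012 b013 b023 b123 b014 b024 b124 b034 b134 b234)

end Pool.Agent.U991.F5.C54
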